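import Mathlib
import Pool.Agent.Helper43x.ZO.Conv
import Pool.Agent.H204R3.GP.Neat

/-!
# Relations between the conjugates of Weil numbers
-/

set_option autoImplicit false

namespace Pool.Agent.Helper43x.NF

open NumberField NumberField.IsCMField Pool.Agent.H485R3 Pool.Agent.H925R2
open Pool.Agent.Helper43x.ZO
open Pool.Agent.H485R3.Exact (ldev ldev_conj norm_p_padic norm_eq_one_of_ne)

variable {I : Type} [Fintype I] {K : I → Type} [∀ i, Field (K i)] [∀ i, NumberField (K i)]
  [∀ i, IsCMField (K i)] {p : ℕ} [Fact p.Prime] {A : Type} [Field A] [CharZero A]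

theorem neat_of_norel {a : ℕ} {π : ∀ i, K i} (hπ : WeilTuple p a π)
    (hno : NoRel (cj (K := K) (A := A)) (Dv p a π)) {L : Type} [Field L] (iL : L →+* A) :
    H204R3.GP.Neat p a π L := by
  classical
  intro m M hM J hprod y
  let up : (Σ i, (K i →+* L)) → Σ i, (K i →+* A) := fun x => ⟨x.1, iL.comp x.2⟩
  have hup : Function.Injective up := by
    rintro ⟨i, φ⟩ ⟨i', ψ⟩ h
    have h1 : i = i' := congrArg Sigma.fst h
    subst h1
    have h2 : iL.comp φ = iL.comp ψ := eq_of_heq (Sigma.mk.inj h).2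
    congr 1
    ext z
    apply iL.injective
    exact congrArg (fun f : K i →+* A => f z) h2
  let σ : Fin m × Fin 2 → Σ i, (K i →+* A) := fun l => up (J l)
  have hrel : (∏ k, (σ k).2 (π (σ k).1)) ^ M = (((p : A) ^ a) ^ m) ^ M := by
    have h1 := congrArg iL hprod
    rw [map_prod] at h1
    simp only [map_pow, map_natCast] at h1
    rw [Finset.prod_pow] at h1
    rw [← pow_mul ((p : A) ^ a)]
    exact h1
  have hsum : ∀ e : A →+* PadicAlgCl p, ∑ k, Dv p a π e (σ k) = 0 := by
    intro e
    have h1 := congrArg (fun w => Real.log ‖e w‖) hrel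
    simp only [map_pow, map_prod, norm_pow, norm_prod, Real.log_pow, map_natCast,
      log_norm_p] at h1
    rw [Real.log_prod (fun k _ => norm_ne_zero_iff.2 ((map_ne_zero e).2 ((map_ne_zero _).2
      (weil_ne hπ _))))] at h1
    have hs' : (M : ℝ) ≠ 0 := by exact_mod_cast hM.ne'
    have h2 := mul_left_cancel₀ hs' h1
    unfold Dv ldev
    rw [Finset.sum_add_distrib, ← Finset.mul_sum, h2, Finset.sum_const, Finset.card_univ,
      Fintype.card_prod, Fintype.card_fin, Fintype.card_fin, nsmul_eq_mul]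
    push_cast
    ring
  let N : (Σ i, K i →+* A) → ℝ := fun τ => ((Finset.univ.filter fun k => σ k = τ).card : ℝ)
  have hsumN : ∀ e : A →+* PadicAlgCl p, ∑ τ, N τ * Dv p a π e τ = 0 := by
    intro e
    rw [← hsum e, ← Finset.sum_fiberwise Finset.univ σ]
    refine Finset.sum_congr rfl fun τ _ => ?_
    rw [Finset.sum_congr rfl (fun k hk => by rw [(Finset.mem_filter.1 hk).2]),
      Finset.sum_const, nsmul_eq_mul]
  have hbij : ∀ f : (Σ i, K i →+* A) → ℝ, ∑ τ, f (cj τ) = ∑ τ, f τ := by
    intro f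
    refine Finset.sum_bij' (fun σ _ => cj σ) (fun σ _ => cj σ) ?_ ?_ ?_ ?_ ?_
    · intro _ _; exact Finset.mem_univ _
    · intro _ _; exact Finset.mem_univ _
    · intro σ _; exact cj_cj' σ
    · intro σ _; exact cj_cj' σ
    · intro _ _; rfl
  have ha := hno (fun τ => N τ - N (cj τ)) (by
    intro τ
    rw [cj_cj']
    ring) (by
    intro e
    have h1 : ∑ τ, (N τ - N (cj τ)) * Dv p a π e τ =
        ∑ τ, N τ * Dv p a π e τ + ∑ τ, N (cj τ) * Dv p a π e (cj τ) := by
      rw [← Finset.sum_add_distrib]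
      refine Finset.sum_congr rfl fun τ _ => ?_
      rw [Dv_cj hπ]
      ring
    rw [h1, hsumN e, hbij (fun τ => N τ * Dv p a π e τ), hsumN e, add_zero])
  have h1 : N (up y) - N (cj (up y)) = 0 := congrFun ha (up y)
  have h2 : cj (up y) = up (H204R3.GP.bar y) := rfl
  have h3 : ∀ y', (Finset.univ.filter fun k => J k = y').card =
      (Finset.univ.filter fun k => σ k = up y').card := by
    intro y'
    congr 1
    ext k
    simp only [Finset.mem_filter, Finset.mem_univ, true_and]
    exact hup.eq_iff.symm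
  rw [h3 y, h3 (H204R3.GP.bar y), ← h2]
  have h4 : N (up y) = N (cj (up y)) := by linarith
  simp only [N] at h4
  exact_mod_cast h4

omit [Fintype I] [∀ i, IsCMField (K i)] [CharZero A] in
/-- the conjugates are different -/
theorem inj_of_sep [Algebra ℚ A] [Algebra.IsAlgebraic ℚ A] {π : ∀ i, K i} (hsep : Separated π) (n : ℕ) (hn : 0 < n)
    (j j' : Σ i, K i →+* A) (h : j.2 (π j.1) ^ n = j'.2 (π j'.1) ^ n) : j = j' := by
  let ι : A →+* ℂ := (IsAlgClosed.lift : A →ₐ[ℚ] ℂ).toRingHom
  obtain ⟨i, τ⟩ := j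
  obtain ⟨i', τ'⟩ := j'
  have h1 : (⟨i, ι.comp τ⟩ : Σ i, K i →+* ℂ) = ⟨i', ι.comp τ'⟩ := by
    apply hsep n hn
    change (ι (τ (π i))) ^ n = (ι (τ' (π i'))) ^ n
    have h2 : τ (π i) ^ n = τ' (π i') ^ n := h
    rw [← map_pow, h2, map_pow]
  have h2 : i = i' := congrArg Sigma.fst h1
  subst h2
  have h3 : ι.comp τ = ι.comp τ' := eq_of_heq (Sigma.mk.inj h1).2
  congr 1
  ext w
  apply ι.injective
  exact congrArg (fun f : K i →+* ℂ => f w) h3

/-- A multiplicative relation if the slopes are dependent. -/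
theorem exists_relation [Algebra ℚ A] [IsAlgClosed A] [Algebra.IsAlgebraic ℚ A] {a : ℕ}
    {π : ∀ i, K i} (hπ : WeilTuple p a π)
    (hno : ¬ NoRel (cj (K := K) (A := A)) (Dv p a π)) :
    ∃ np : (Σ i, K i →+* A) → ℕ, (∀ j, 0 < np j → np (cj j) = 0) ∧ 0 < ∑ j, np j ∧
      ∃ s : ℕ, 0 < s ∧ (∏ j, (j.2 (π j.1)) ^ (2 * np j)) ^ s =
        (((p : A) ^ a) ^ (∑ j, np j)) ^ s := by
  classical
  have hp : p.Prime := Fact.out
  have hp1 : 1 < (p : ℝ) := by exact_mod_cast hp.one_lt
  have hlog : 0 < Real.log p := Real.log_pos hp1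
  -- rationality
  have hρ : ∀ (e : A →+* PadicAlgCl p) (j : Σ i, K i →+* A), ∃ r : ℚ,
      Dv p a π e j = r * Real.log p := by
    intro e j
    obtain ⟨r, hr⟩ := exists_rat p (e.comp j.2) (π j.1) (weil_ne hπ _)
    refine ⟨2 * r + a, ?_⟩
    have h1 := hr _ rfl
    unfold Dv ldev
    change Real.log ‖e (j.2 (π j.1))‖ = _ at h1
    rw [h1]
    push_cast
    ring
  choose ρ hρ using hρ
  have hρc : ∀ e j, ρ e (cj j) = - ρ e j := by
    intro e j
    have h1 := Dv_cj hπ e j
    rw [hρ, hρ, ← neg_mul] at h1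
    have h2 := mul_right_cancel₀ hlog.ne' h1
    exact_mod_cast h2
  have hfun : (fun e j => (ρ e j : ℝ) * Real.log p) = Dv p a π (K := K) (A := A) := by
    funext e j
    rw [hρ]
  by_contra hcon
  apply hno
  rw [← hfun]
  refine norel_cast cj cj_cj' cj_ne' hρc _ hlog.ne' (norel_of_int cj ?_)
  intro n hn hrel
  by_contra hn0
  apply hcon
  let np : (Σ i, K i →+* A) → ℕ := fun j => (n j).toNat
  have hnp : ∀ j, (n j : ℝ) = np j - np (cj j) := by
    intro j
    have h1 : (n j : ℤ) = (n j).toNat - (n (cj j)).toNat := by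
      rw [hn j]
      omega
    have h2 := congrArg (Int.cast : ℤ → ℝ) h1
    push_cast at h2
    exact h2
  set m : ℕ := ∑ j, np j with hm
  have hmpos : 0 < m := by
    obtain ⟨j, hj⟩ : ∃ j, n j ≠ 0 := by
      by_contra h
      push Not at h
      exact hn0 (funext h)
    have h1 : ∃ j, 0 < np j := by
      rcases lt_or_gt_of_ne hj with h | h
      · refine ⟨cj j, ?_⟩
        simp only [np]
        rw [hn j]
        omega
      · refine ⟨j, ?_⟩
        simp only [np]
        omega
    obtain ⟨j, hj⟩ := h1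
    exact hj.trans_le (Finset.single_le_sum (f := np) (fun _ _ => Nat.zero_le _)
      (Finset.mem_univ j))
  refine ⟨np, fun j hj => ?_, hmpos, ?_⟩
  · simp only [np] at hj ⊢
    rw [hn]
    omega
  let val : (Σ i, K i →+* A) → A := fun j => j.2 (π j.1)
  have hval0 : ∀ j, val j ≠ 0 := fun j => (map_ne_zero _).2 (weil_ne hπ _)
  -- the product
  let N : A := ∏ j, val j ^ (2 * np j)
  have hN0 : N ≠ 0 := Finset.prod_ne_zero_iff.2 fun j _ => pow_ne_zero _ (hval0 j)
  have hsum : ∀ e : A →+* PadicAlgCl p, ∑ j, (np j : ℝ) * Dv p a π e j = 0 := by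
    intro e
    have h1 : ∑ j, (n j : ℝ) * Dv p a π e j = 0 := by
      have h2 := congrArg (fun q : ℚ => (q : ℝ) * Real.log p) (hrel e)
      simp only [Rat.cast_sum, Rat.cast_mul, Rat.cast_intCast, Rat.cast_zero, zero_mul,
        Finset.sum_mul] at h2
      rw [← h2]
      refine Finset.sum_congr rfl fun j _ => ?_
      rw [hρ]
      ring
    have h2 : ∑ j, (np (cj j) : ℝ) * Dv p a π e j = - ∑ j, (np j : ℝ) * Dv p a π e j := by
      rw [← Finset.sum_neg_distrib]
      refine Finset.sum_bij' (fun σ _ => cj σ) (fun σ _ => cj σ) ?_ ?_ ?_ ?_ ?_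
      · intro _ _; exact Finset.mem_univ _
      · intro _ _; exact Finset.mem_univ _
      · intro σ _; exact cj_cj' σ
      · intro σ _; exact cj_cj' σ
      · intro j _
        rw [Dv_cj hπ]
        ring
    simp only [hnp, sub_mul, Finset.sum_sub_distrib] at h1
    rw [h2] at h1
    linarith
  obtain ⟨s, hs, hξ⟩ : ∃ s : ℕ, 0 < s ∧ (N / ((p : A) ^ a) ^ m) ^ s = 1 := by
    apply root_of_unity'
    · intro l _ e
      rw [map_div₀, map_pow, map_pow, map_natCast, norm_div, norm_pow, norm_pow]
      by_cases hl : l = p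
      · subst hl
        have hNpos : 0 < ‖e N‖ := norm_pos_iff.2 ((map_ne_zero _).2 hN0)
        have h2 : Real.log ‖e N‖ = ∑ j, (2 * np j : ℝ) * Real.log ‖e (val j)‖ := by
          simp only [N, map_prod, norm_prod, map_pow, norm_pow]
          rw [Real.log_prod]
          · refine Finset.sum_congr rfl fun j _ => ?_
            rw [Real.log_pow]
            push_cast
            ring
          · intro j _
            exact pow_ne_zero _ (norm_ne_zero_iff.2 ((map_ne_zero _).2 (hval0 j)))
        have h3 := hsum e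
        have h4 : Real.log ‖e N‖ = - (m * (a * Real.log l)) := by
          have h5 : ∑ j, (np j : ℝ) * Dv l a π e j = ∑ j, (2 * np j : ℝ) * Real.log ‖e (val j)‖ +
              m * (a * Real.log l) := by
            rw [hm]
            push_cast
            rw [Finset.sum_mul, ← Finset.sum_add_distrib]
            refine Finset.sum_congr rfl fun j _ => ?_
            unfold Dv ldev
            ring
          rw [h2]
          linarith
        have h5 : Real.log (‖e N‖ / (‖(l : PadicAlgCl l)‖ ^ a) ^ m) = 0 := by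
          rw [norm_p_padic, Real.log_div hNpos.ne' (by positivity), Real.log_pow, Real.log_pow,
            Real.log_inv, h4]
          ring
        have h6 : 0 < ‖e N‖ / (‖(l : PadicAlgCl l)‖ ^ a) ^ m := by
          rw [norm_p_padic]
          positivity
        exact (Real.eq_one_of_pos_of_log_eq_zero h6 h5).le
      · have h1 : ‖e N‖ = 1 := by
          simp only [N, map_prod, norm_prod, map_pow, norm_pow]
          refine Finset.prod_eq_one fun j _ => ?_
          have h2 := norm_eq_one_of_ne p a (π j.1) (hπ _).1 (hπ _).2 l hl (e.comp j.2)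
          change ‖e (val j)‖ = 1 at h2
          rw [h2, one_pow]
        have h4 : (p : PadicAlgCl l) = algebraMap ℚ_[l] (PadicAlgCl l) (p : ℚ_[l]) := by simp
        have h5 : ‖(p : ℚ_[l])‖ = 1 := by
          rw [Padic.norm_natCast_eq_one_iff]
          exact (Nat.coprime_primes (Fact.out : l.Prime) (Fact.out : p.Prime)).2 hl
        rw [h1, h4, PadicAlgCl.norm_extends, h5, one_pow, one_pow, div_one]
    · intro φ
      rw [map_div₀, map_pow, map_pow, map_natCast, norm_div, norm_pow, norm_pow,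
        Complex.norm_natCast]
      have h1 : ‖φ N‖ = ((p : ℝ) ^ a) ^ m := by
        simp only [N, map_prod, norm_prod, map_pow, norm_pow]
        rw [hm, ← Finset.prod_pow_eq_pow_sum]
        refine Finset.prod_congr rfl fun j _ => ?_
        rw [pow_mul]
        congr 1
        exact (hπ j.1).2 (φ.comp j.2)
      rw [h1, div_self]
      positivity
  refine ⟨s, hs, ?_⟩
  have hp0 : (p : A) ≠ 0 := by exact_mod_cast hp.ne_zero
  have h2 : (((p : A) ^ a) ^ m) ^ s ≠ 0 := pow_ne_zero _ (pow_ne_zero _ (pow_ne_zero _ hp0))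
  rw [div_pow] at hξ
  exact (div_eq_one_iff_eq h2).1 hξ

end Pool.Agent.Helper43x.NF
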