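import Mathlib
import Pool.Agent.Helper43x.NF.Rel
import Pool.Agent.H204R3.GP.Defs
import Pool.Agent.H204R3.GP.HomDefs

/-!
# Representations of the infinite cyclic group with exotic classes
-/

set_option autoImplicit false

namespace Pool.Agent.Helper43x.NF

open Pool.Agent.H204R3.GP Polynomial
open scoped TensorProduct

section diag

variable {k : Type} [Field k] {E : Type} [Fintype E] [DecidableEq E] (μ : E → kˣ)

/-- the diagonal representation of the infinite cyclic group -/
noncomputable def diagRep : Representation k (Multiplicative ℤ) (E → k) where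
  toFun g := LinearMap.pi fun x => ((μ x ^ (Multiplicative.toAdd g) : kˣ) : k) • LinearMap.proj x
  map_one' := by
    refine LinearMap.ext fun v => funext fun x => ?_
    simp
  map_mul' g h := by
    refine LinearMap.ext fun v => funext fun x => ?_
    simp [zpow_add, mul_assoc]

omit [Fintype E] [DecidableEq E] in
theorem diagRep_apply (g : Multiplicative ℤ) (v : E → k) (x : E) :
    diagRep μ g v x = ((μ x ^ (Multiplicative.toAdd g) : kˣ) : k) * v x := rfl

/-- the character -/
noncomputable def chi (Q : kˣ) : Multiplicative ℤ →* k where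
  toFun g := ((Q ^ (Multiplicative.toAdd g) : kˣ) : k)
  map_one' := by simp
  map_mul' g h := by simp [zpow_add]

theorem chi_apply (Q : kˣ) (g : Multiplicative ℤ) :
    chi Q g = ((Q ^ (Multiplicative.toAdd g) : kˣ) : k) := rfl

theorem diagRep_charpoly : (diagRep μ (Multiplicative.ofAdd 1)).charpoly = ∏ x, (X - C (μ x : k)) := by
  have h1 : diagRep μ (Multiplicative.ofAdd 1) = (Matrix.diagonal fun x => (μ x : k)).toLin' := by
    refine LinearMap.ext fun v => funext fun x => ?_
    rw [diagRep_apply, Matrix.toLin'_apply, Matrix.mulVec_diagonal]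
    simp
  rw [h1, Matrix.charpoly_toLin', Matrix.charpoly_diagonal]

omit [Fintype E] in
theorem diagRep_single (g : Multiplicative ℤ) (x : E) :
    diagRep μ g (Pi.single x 1) = ((μ x ^ (Multiplicative.toAdd g) : kˣ) : k) • Pi.single x 1 := by
  refine funext fun y => ?_
  rw [diagRep_apply, Pi.smul_apply, smul_eq_mul]
  by_cases h : y = x
  · rw [h]
  · rw [Pi.single_eq_of_ne h, mul_zero, mul_zero]

/-- a stable subspace contains the components of its elements -/
theorem proj_mem (M : ℕ) (hsep : Function.Injective fun x => μ x ^ M)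
    (U : Submodule k (E → k))
    (hU : ∀ u ∈ U, diagRep μ (Multiplicative.ofAdd (M : ℤ)) u ∈ U) (u : E → k) (hu : u ∈ U) (x : E) :
    u x • (Pi.single x (1 : k) : E → k) ∈ U := by
  classical
  have key : ∀ S : Finset E, ∀ w ∈ U, (fun y => (∏ z ∈ S, (((μ y ^ M : kˣ) : k) - ((μ z ^ M : kˣ) : k))) * w y) ∈ U := by
    intro S
    induction S using Finset.induction_on with
    | empty =>
      intro w hw
      simpa using hw
    | insert a S ha ih =>
      intro w hw
      have h1 : (diagRep μ (Multiplicative.ofAdd (M : ℤ)) w - ((μ a ^ M : kˣ) : k) • w) ∈ U :=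
        U.sub_mem (hU w hw) (U.smul_mem _ hw)
      have h2 := ih _ h1
      convert h2 using 1
      funext y
      rw [Finset.prod_insert ha, Pi.sub_apply, diagRep_apply, Pi.smul_apply, smul_eq_mul,
        toAdd_ofAdd, zpow_natCast]
      ring
  have h1 := key (Finset.univ.erase x) u hu
  set c : k := ∏ z ∈ Finset.univ.erase x, (((μ x ^ M : kˣ) : k) - ((μ z ^ M : kˣ) : k)) with hc
  have hc0 : c ≠ 0 := by
    rw [hc]
    refine Finset.prod_ne_zero_iff.2 fun z hz h => ?_
    have h2 : μ x ^ M = μ z ^ M := Units.ext (sub_eq_zero.1 h)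
    exact (Finset.ne_of_mem_erase hz) (hsep h2).symm
  have h2 : (fun y => (∏ z ∈ Finset.univ.erase x, (((μ y ^ M : kˣ) : k) - ((μ z ^ M : kˣ) : k))) * u y) =
      c • (u x • (Pi.single x (1 : k) : E → k)) := by
    funext y
    rw [Pi.smul_apply, Pi.smul_apply, smul_eq_mul, smul_eq_mul]
    by_cases h : y = x
    · rw [h, Pi.single_eq_same, mul_one]
    · rw [Pi.single_eq_of_ne h, mul_zero, mul_zero, Finset.prod_eq_zero (Finset.mem_erase.2 ⟨h, Finset.mem_univ _⟩)
        (sub_self _), zero_mul]
  rw [h2] at h1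
  have h3 := U.smul_mem c⁻¹ h1
  rwa [smul_smul, inv_mul_cancel₀ hc0, one_smul] at h3

theorem exists_pow_mem (Δ : Subgroup (Multiplicative ℤ)) (hΔ : Δ.FiniteIndex) :
    ∃ M : ℕ, 0 < M ∧ Multiplicative.ofAdd (M : ℤ) ∈ Δ := by
  obtain ⟨M, hM, -, h⟩ := Subgroup.exists_pow_mem_of_index_ne_zero hΔ.index_ne_zero
    (Multiplicative.ofAdd (1 : ℤ))
  refine ⟨M, hM, ?_⟩
  rw [← ofAdd_nsmul] at h
  simpa using h

theorem diagRep_semisimple (hsep : ∀ M : ℕ, 0 < M → Function.Injective fun x => μ x ^ M) :
    FiniteIndexSemisimple (diagRep μ) := by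
  classical
  intro Δ hΔ U hU
  obtain ⟨M, hM, hMΔ⟩ := exists_pow_mem Δ hΔ
  have hproj := proj_mem μ M (hsep M hM) U (fun u hu => hU _ hMΔ u hu)
  let T : Set E := {x | (Pi.single x (1 : k) : E → k) ∈ U}
  have hUT : ∀ u ∈ U, ∀ x, x ∉ T → u x = 0 := by
    intro u hu x hx
    by_contra h0
    apply hx
    have h1 := U.smul_mem (u x)⁻¹ (hproj u hu x)
    rwa [smul_smul, inv_mul_cancel₀ h0, one_smul] at h1
  have hTU : ∀ u : E → k, (∀ x, x ∉ T → u x = 0) → u ∈ U := by
    intro u hu
    have h1 : u = ∑ x, u x • (Pi.single x (1 : k) : E → k) := by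
      funext l
      rw [Finset.sum_apply, Finset.sum_eq_single l]
      · simp
      · intro b _ hb
        simp [Pi.single_eq_of_ne (Ne.symm hb)]
      · intro h
        exact absurd (Finset.mem_univ _) h
    rw [h1]
    refine U.sum_mem fun x _ => ?_
    by_cases hx : x ∈ T
    · exact U.smul_mem _ hx
    · rw [hu x hx, zero_smul]
      exact U.zero_mem
  let U' : Submodule k (E → k) :=
    { carrier := {u | ∀ x ∈ T, u x = 0}
      add_mem' := fun {a b} ha hb x hx => by rw [Pi.add_apply, ha x hx, hb x hx, add_zero]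
      zero_mem' := fun x _ => rfl
      smul_mem' := fun c a ha x hx => by rw [Pi.smul_apply, ha x hx, smul_zero] }
  refine ⟨U', fun s _ u hu x hx => by rw [diagRep_apply, hu x hx, mul_zero], ?_⟩
  rw [isCompl_iff]
  constructor
  · rw [Submodule.disjoint_def]
    intro u hu hu'
    funext x
    by_cases hx : x ∈ T
    · exact hu' x hx
    · exact hUT u hu x hx
  · rw [codisjoint_iff, eq_top_iff]
    intro u _
    rw [Submodule.mem_sup]
    refine ⟨fun x => if x ∈ T then u x else 0, hTU _ (fun x hx => if_neg hx),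
      fun x => if x ∈ T then 0 else u x, fun x hx => if_pos hx, ?_⟩
    funext x
    rw [Pi.add_apply]
    by_cases hx : x ∈ T
    · simp [hx]
    · simp [hx]

end diag

section form

variable {k : Type} [Field k] {E : Type} [Fintype E] [DecidableEq E] (c : E → E)

/-- a sign on the pairs -/
noncomputable def sgn (x : E) : k :=
  if Fintype.equivFin E x < Fintype.equivFin E (c x) then 1 else -1

omit [DecidableEq E] in
theorem sgn_c (hc : ∀ x, c (c x) = x) (hne : ∀ x, c x ≠ x) (x : E) :
    (sgn c (c x) : k) = - sgn c x := by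
  unfold sgn
  rw [hc]
  have h1 : Fintype.equivFin E x ≠ Fintype.equivFin E (c x) :=
    fun h => hne x ((Fintype.equivFin E).injective h).symm
  rcases lt_or_gt_of_ne h1 with h | h
  · rw [if_pos h, if_neg (not_lt.2 h.le)]
  · rw [if_neg (not_lt.2 h.le), if_pos h, neg_neg]

omit [DecidableEq E] in
theorem sgn_ne (x : E) : (sgn c x : k) ≠ 0 := by
  unfold sgn
  split_ifs
  · exact one_ne_zero
  · exact neg_ne_zero.2 one_ne_zero

/-- the alternating form -/
noncomputable def om : (E → k) →ₗ[k] (E → k) →ₗ[k] k :=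
  ∑ x, (sgn c x : k) • (LinearMap.mul k k).compl₁₂ (LinearMap.proj x) (LinearMap.proj (c x))

omit [DecidableEq E] in
theorem om_apply (u v : E → k) : om c u v = ∑ x, sgn c x * (u x * v (c x)) := by
  unfold om
  simp [LinearMap.sum_apply]

omit [DecidableEq E] in
theorem om_alt [CharZero k] (hc : ∀ x, c (c x) = x) (hne : ∀ x, c x ≠ x) (v : E → k) : om c v v = 0 := by
  have h1 : om c v v = - om c v v := by
    conv_lhs => rw [om_apply]
    rw [om_apply, ← Finset.sum_neg_distrib]
    refine Finset.sum_bij' (fun x _ => c x) (fun x _ => c x) ?_ ?_ ?_ ?_ ?_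
    · intro _ _; exact Finset.mem_univ _
    · intro _ _; exact Finset.mem_univ _
    · intro x _; exact hc x
    · intro x _; exact hc x
    · intro x _
      rw [sgn_c c hc hne, hc]
      ring
  have h2 : (2 : k) * om c v v = 0 := by linear_combination h1
  exact (mul_eq_zero.1 h2).resolve_left two_ne_zero

theorem om_nondeg (hc : ∀ x, c (c x) = x) (u : E → k) (hu : ∀ v, om c v u = 0) : u = 0 := by
  funext x
  have h1 := hu (Pi.single (c x) 1)
  rw [om_apply, Finset.sum_eq_single (c x)] at h1
  · rw [Pi.single_eq_same, one_mul, hc] at h1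
    exact (mul_eq_zero.1 h1).resolve_left (sgn_ne c _)
  · intro y _ hy
    rw [Pi.single_eq_of_ne hy, zero_mul, mul_zero]
  · intro h
    exact absurd (Finset.mem_univ _) h

omit [DecidableEq E] in
theorem om_rep (μ : E → kˣ) (Q : kˣ) (hμ : ∀ x, μ x * μ (c x) = Q) (g : Multiplicative ℤ) (u v : E → k) :
    om c (diagRep μ g u) (diagRep μ g v) = chi Q g * om c u v := by
  rw [om_apply, om_apply, Finset.mul_sum]
  refine Finset.sum_congr rfl fun x _ => ?_
  rw [diagRep_apply, diagRep_apply, chi_apply, ← hμ x, mul_zpow]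
  push_cast
  ring

end form

section exotic

variable {k : Type} [Field k] {E : Type} [Fintype E] [DecidableEq E]

/-- the monomial form -/
noncomputable def mono {n : ℕ} (κ : Fin n → E) : (⨂[k] _ : Fin n, (E → k)) →ₗ[k] (⨂[k] _ : Fin 0, (E → k)) :=
  (LinearMap.toSpanSingleton k (⨂[k] _ : Fin 0, (E → k)) (PiTensorProduct.tprod k Fin.elim0)).comp
    (PiTensorProduct.lift ((MultilinearMap.mkPiAlgebra k (Fin n) k).compLinearMap
      (fun l => (LinearMap.proj (κ l) : (E → k) →ₗ[k] k))))

omit [Fintype E] [DecidableEq E] in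
theorem mono_tprod {n : ℕ} (κ : Fin n → E) (x : Fin n → E → k) :
    mono κ (PiTensorProduct.tprod k x) = (∏ l, x l (κ l)) • PiTensorProduct.tprod k Fin.elim0 := by
  unfold mono
  rw [LinearMap.comp_apply, PiTensorProduct.lift.tprod, LinearMap.toSpanSingleton_apply]
  simp

theorem not_generated (μ : E → kˣ) (Q : kˣ) (c : E → E) (hμ : ∀ x, μ x * μ (c x) = Q)
    (hsep : ∀ M : ℕ, 0 < M → Function.Injective fun x => μ x ^ M) (ω : (E → k) →ₗ[k] (E → k) →ₗ[k] k)
    (n m s : ℕ) (κ : Fin n → E) (hn : n = 2 * m) (hm : 0 < m) (hs : 0 < s)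
    (hrel : (∏ l, μ (κ l)) ^ s = (Q ^ m) ^ s) (hκ : ∀ a b, κ b ≠ c (κ a)) :
    ¬ HomsGeneratedInDegreeTwo (diagRep μ) (chi Q) ω := by
  classical
  intro H
  have hT : IsTateHom (diagRep μ) (chi Q) 0 m (mono κ) := by
    refine ⟨Subgroup.zpowers (Multiplicative.ofAdd (s : ℤ)), ?_, ?_⟩
    · constructor
      intro h0
      have h1 : (AddSubgroup.zmultiples (s : ℤ)).index = s := Int.index_zmultiples (s : ℤ) ▸ by simp
      have h2 : (Subgroup.zpowers (Multiplicative.ofAdd (s : ℤ))).index =
          (AddSubgroup.zmultiples (s : ℤ)).index := by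
        rw [← AddSubgroup.index_toSubgroup]
        rfl
      omega
    · rintro g ⟨t, rfl⟩ x
      rw [pow_zero, one_smul]
      induction x using PiTensorProduct.induction_on with
      | smul_tprod r z =>
        rw [map_smul, map_smul, map_smul, map_smul, PiTensorProduct.map_tprod, mono_tprod, mono_tprod, map_smul,
          PiTensorProduct.map_tprod]
        have h1 : (fun i : Fin 0 => (diagRep μ ((fun x : ℤ => Multiplicative.ofAdd (s : ℤ) ^ x) t))
            ((Fin.elim0 : Fin 0 → E → k) i)) = Fin.elim0 := by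
          funext i
          exact Fin.elim0 i
        rw [h1, smul_smul _ _ (PiTensorProduct.tprod k Fin.elim0), smul_comm (chi Q _ ^ m), smul_smul _ _ (PiTensorProduct.tprod k Fin.elim0),
          smul_smul]
        congr 1
        simp only [diagRep_apply, chi_apply, Finset.prod_mul_distrib]
        have h2 : Multiplicative.toAdd (Multiplicative.ofAdd (s : ℤ) ^ t) = t * s := by
          rw [toAdd_zpow, toAdd_ofAdd, smul_eq_mul]
        simp only [h2]
        have h3 : ∏ l, ((μ (κ l) ^ (t * (s : ℤ)) : kˣ) : k) = ((Q ^ (t * (s : ℤ)) : kˣ) : k) ^ m := by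
          rw [← Units.coe_prod, ← Units.val_pow_eq_pow_val]
          congr 1
          have h4 : ∀ z : kˣ, z ^ (t * (s : ℤ)) = (z ^ s) ^ t := by
            intro z
            rw [mul_comm, zpow_mul, zpow_natCast]
          simp only [h4]
          rw [Finset.prod_zpow, Finset.prod_pow, hrel, ← zpow_natCast, ← zpow_natCast, ← zpow_natCast,
            ← zpow_natCast, ← zpow_mul, ← zpow_mul, ← zpow_mul, ← zpow_mul]
          congr 1
          ring
        rw [h3]
      | add a b ha hb => simp only [map_add, smul_add, ha, hb]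
  have hmem := H n 0 0 m (by omega) (mono κ) hT
  let x0 : Fin n → E → k := fun l => Pi.single (κ l) 1
  let Ψ : ((⨂[k] _ : Fin n, (E → k)) →ₗ[k] (⨂[k] _ : Fin 0, (E → k))) →ₗ[k] k :=
    (pairing ω Fin.elim0).comp (LinearMap.applyₗ (PiTensorProduct.tprod k x0))
  have hΨ : Ψ (mono κ) = 0 := by
    have h1 : Submodule.span k {f' : (⨂[k] _ : Fin n, (E → k)) →ₗ[k] (⨂[k] _ : Fin 0, (E → k)) |
        IsElementary (diagRep μ) (chi Q) ω f'} ≤ LinearMap.ker Ψ := by
      rw [Submodule.span_le]
      rintro f' ⟨m', e, B, hB, hf'⟩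
      change Ψ f' = 0
      have h2 := hf' x0 Fin.elim0
      change pairing ω Fin.elim0 (f' (PiTensorProduct.tprod k x0)) = 0
      rw [h2]
      have hm' : 0 < m' := by
        have h3 := Fintype.card_congr e
        simp at h3
        omega
      refine Finset.prod_eq_zero (Finset.mem_univ ⟨0, hm'⟩) ?_
      obtain ⟨a, ha⟩ : ∃ a, e (⟨0, hm'⟩, 0) = Sum.inl a := by
        rcases h : e (⟨0, hm'⟩, 0) with a | a
        · exact ⟨a, rfl⟩
        · exact Fin.elim0 a
      obtain ⟨b, hb⟩ : ∃ a, e (⟨0, hm'⟩, 1) = Sum.inl a := by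
        rcases h : e (⟨0, hm'⟩, 1) with a | a
        · exact ⟨a, rfl⟩
        · exact Fin.elim0 a
      rw [ha, hb, Sum.elim_inl, Sum.elim_inl]
      obtain ⟨Δ, hΔ, hΔB⟩ := hB ⟨0, hm'⟩
      obtain ⟨M, hM, hMΔ⟩ := exists_pow_mem Δ hΔ
      have h3 := hΔB _ hMΔ (x0 a) (x0 b)
      simp only [x0] at h3 ⊢
      rw [diagRep_single, diagRep_single, map_smul, map_smul, LinearMap.smul_apply, smul_eq_mul, smul_eq_mul,
        chi_apply, toAdd_ofAdd, zpow_natCast, zpow_natCast, zpow_natCast] at h3
      by_contra h0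
      rw [← mul_assoc] at h3
      have h4 := mul_right_cancel₀ h0 h3
      rw [← Units.val_mul, Units.val_inj, ← hμ (κ a), mul_pow, mul_comm] at h4
      have h5 := mul_left_cancel h4
      exact hκ a b (hsep M hM h5)
    exact h1 hmem
  have h1 : Ψ (mono κ) = 1 := by
    change pairing ω Fin.elim0 (mono κ (PiTensorProduct.tprod k x0)) = 1
    rw [mono_tprod, map_smul]
    have h2 : pairing ω (Fin.elim0 : Fin 0 → E → k) (PiTensorProduct.tprod k Fin.elim0) = 1 := by
      unfold pairing
      rw [PiTensorProduct.lift.tprod]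
      simp
    rw [h2]
    simp [x0]
  rw [h1] at hΨ
  exact one_ne_zero hΨ

end exotic

end Pool.Agent.Helper43x.NF
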