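import Mathlib
import Pool.Agent.Helper43x.TH.Main

/-!
# Independent CM fields with places of degree one
-/

set_option autoImplicit false

namespace Pool.Agent.Helper43x.NF

open NumberField NumberField.IsCMField Pool.Agent.H485R3 Pool.Agent.H925R2
open Pool.Agent.Helper43x.ZO Pool.Agent.Helper43x.UC Pool.Agent.Helper43x.TH

variable {I : Type} [Fintype I] {K : I → Type} [∀ i, Field (K i)] [∀ i, NumberField (K i)]
  [∀ i, IsCMField (K i)] (p : ℕ) [Fact p.Prime]
  {A : Type} [Field A] [CharZero A] [Algebra ℚ A] [IsAlgClosed A] [Algebra.IsAlgebraic ℚ A]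

/-- the action on all embeddings -/
instance instActSig : MulAction (A ≃+* A) (Σ i, K i →+* A) where
  smul g x := ⟨x.1, (g : A →+* A).comp x.2⟩
  one_smul x := rfl
  mul_smul g h x := rfl

omit [Fintype I] [∀ i, NumberField (K i)] [∀ i, IsCMField (K i)] [CharZero A] [Algebra ℚ A]
  [IsAlgClosed A] [Algebra.IsAlgebraic ℚ A] in
theorem smul_sig (g : A ≃+* A) (x : Σ i, K i →+* A) : g • x = ⟨x.1, (g : A →+* A).comp x.2⟩ := rfl

/-- the criterion holds -/
theorem crit_indep (hind : ∀ i j, i ≠ j → ∀ (σ : K i →+* A) (τ : K j →+* A),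
      ∃ g : A ≃+* A, (g : A →+* A).comp σ = bar σ ∧ (g : A →+* A).comp τ = τ)
    (x : ∀ i, K i →+* ℚ_[p]) : Crit p K A := by
  classical
  let y : ∀ i, K i →+* PadicAlgCl p := fun i => (algebraMap ℚ_[p] (PadicAlgCl p)).comp (x i)
  have hybar : ∀ i, bar (y i) = (algebraMap ℚ_[p] (PadicAlgCl p)).comp (bar (x i)) := fun i => rfl
  let n : ∀ i, (K i →+* PadicAlgCl p) → ℤ := fun i v =>
    (if v = y i then 1 else 0) - (if v = bar (y i) then 1 else 0)
  refine ⟨n, ?_, ?_, ?_⟩
  · intro i v
    have h1 : bar v = y i ↔ v = bar (y i) :=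
      ⟨fun h => by rw [← h, bar_bar], fun h => by rw [h, bar_bar]⟩
    have h2 : bar v = bar (y i) ↔ v = y i :=
      ⟨fun h => by rw [← bar_bar v, h, bar_bar], fun h => by rw [h]⟩
    simp only [n, h1, h2]
    ring
  · intro i v v' h
    have h1 : v = y i ↔ v' = y i := by
      constructor
      · rintro rfl
        exact place_inj p (x i) v' fun z => (h z).symm
      · rintro rfl
        exact place_inj p (x i) v h
    have h2 : v = bar (y i) ↔ v' = bar (y i) := by
      rw [hybar]
      constructor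
      · rintro rfl
        exact place_inj p (bar (x i)) v' fun z => (h z).symm
      · rintro rfl
        exact place_inj p (bar (x i)) v h
    simp only [n, h1, h2]
  · intro b hb hrel
    -- the embedding over `y i`
    choose t ht using fun (e : A →+* PadicAlgCl p) (i : I) => exists_factor' e (y i)
    have ht' : ∀ (e : A →+* PadicAlgCl p) (i : I), e.comp (t e i) = y i :=
      fun e i => RingHom.ext (ht e i)
    have huniq : ∀ (e : A →+* PadicAlgCl p) {i : I} (τ τ' : K i →+* A), e.comp τ = e.comp τ' → τ = τ' := by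
      intro e i τ τ' h
      ext z
      apply e.injective
      exact congrArg (fun f : K i →+* PadicAlgCl p => f z) h
    have hsum : ∀ e : A →+* PadicAlgCl p, ∑ i, b ⟨i, t e i⟩ = 0 := by
      intro e
      have h1 := hrel e
      rw [Fintype.sum_sigma] at h1
      have h2 : ∀ i : I, ∑ τ : K i →+* A, b ⟨i, τ⟩ * n i (e.comp τ) = 2 * b ⟨i, t e i⟩ := by
        intro i
        have h3 : ∀ τ : K i →+* A, (e.comp τ = y i ↔ τ = t e i) ∧
            (e.comp τ = bar (y i) ↔ τ = bar (t e i)) := by
          intro τ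
          constructor
          · constructor
            · intro h
              exact huniq e _ _ (h.trans (ht' e i).symm)
            · rintro rfl
              exact ht' e i
          · have h4 : e.comp (bar (t e i)) = bar (y i) := by
              rw [← ht' e i]
              rfl
            constructor
            · intro h
              exact huniq e _ _ (h.trans h4.symm)
            · rintro rfl
              exact h4
        have h4 : ∀ τ : K i →+* A, b ⟨i, τ⟩ * n i (e.comp τ) =
            (if τ = t e i then b ⟨i, τ⟩ else 0) - (if τ = bar (t e i) then b ⟨i, τ⟩ else 0) := by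
          intro τ
          simp only [n, (h3 τ).1, (h3 τ).2]
          split_ifs <;> ring
        simp only [h4, Finset.sum_sub_distrib, Finset.sum_ite_eq', Finset.mem_univ, if_true]
        have h5 : b ⟨i, bar (t e i)⟩ = - b ⟨i, t e i⟩ := hb ⟨i, t e i⟩
        rw [h5]
        ring
      have h3 : ∑ i, 2 * b ⟨i, t e i⟩ = 0 := by
        rw [← h1]
        exact Finset.sum_congr rfl fun i _ => (h2 i).symm
      rw [← Finset.mul_sum] at h3
      exact (mul_eq_zero.1 h3).resolve_left two_ne_zero
    let e₀ : A →+* PadicAlgCl p := (IsAlgClosed.lift : A →ₐ[ℚ] PadicAlgCl p).toRingHom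
    let X : Type := Σ i, K i →+* A
    let σ : I → X := fun i => ⟨i, t e₀ i⟩
    have hG : ∀ g : A ≃+* A, ∑ i, b (g • σ i) = 0 := by
      intro g
      have h1 := hsum (e₀.comp ((g⁻¹ : A ≃+* A) : A →+* A))
      rw [← h1]
      refine Finset.sum_congr rfl fun i _ => ?_
      congr 1
      change (⟨i, (g : A →+* A).comp (t e₀ i)⟩ : X) = ⟨i, _⟩
      congr 1
      apply huniq (e₀.comp ((g⁻¹ : A ≃+* A) : A →+* A))
      rw [ht', ← ht' e₀ i]
      ext z
      change e₀ (g⁻¹ (g (t e₀ i z))) = e₀ (t e₀ i z)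
      congr 1
      exact g.symm_apply_apply _
    -- the finite group
    let φ : (A ≃+* A) →* Equiv.Perm X := MulAction.toPermHom (A ≃+* A) X
    let H : Subgroup (Equiv.Perm X) := φ.range
    have hHb : ∀ h : H, ∀ z : X, h.1 (cj z) = cj (h.1 z) := by
      rintro ⟨_, g, rfl⟩ z
      rfl
    have hHsum : ∀ h : H, ∑ i, b (h.1 (σ i)) = 0 := by
      rintro ⟨_, g, rfl⟩
      exact hG g
    have hoff : ∀ i j, i ≠ j → ∑ h : H, b (h.1 (σ i)) * b (h.1 (σ j)) = 0 := by
      intro i j hij
      obtain ⟨g, hg1, hg2⟩ := hind i j hij (t e₀ i) (t e₀ j)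
      let g' : H := ⟨φ g, g, rfl⟩
      have h1 : g'.1 (σ i) = cj (σ i) := by
        change (⟨i, (g : A →+* A).comp (t e₀ i)⟩ : X) = ⟨i, bar (t e₀ i)⟩
        rw [hg1]
      have h2 : g'.1 (σ j) = σ j := by
        change (⟨j, (g : A →+* A).comp (t e₀ j)⟩ : X) = ⟨j, t e₀ j⟩
        rw [hg2]
      have h3 : ∑ h : H, b (h.1 (σ i)) * b (h.1 (σ j)) =
          ∑ h : H, b ((h * g').1 (σ i)) * b ((h * g').1 (σ j)) :=
        (Fintype.sum_equiv (Equiv.mulRight g') _ _ fun h => rfl).symm
      have h4 : ∀ h : H, b ((h * g').1 (σ i)) * b ((h * g').1 (σ j)) =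
          -(b (h.1 (σ i)) * b (h.1 (σ j))) := by
        intro h
        have e1 : (h * g').1 (σ i) = cj (h.1 (σ i)) := by
          change h.1 (g'.1 (σ i)) = _
          rw [h1, hHb]
        have e2 : (h * g').1 (σ j) = h.1 (σ j) := by
          change h.1 (g'.1 (σ j)) = _
          rw [h2]
        rw [e1, e2, hb]
        ring
      rw [Finset.sum_congr rfl (fun h _ => h4 h), Finset.sum_neg_distrib] at h3
      omega
    have hdiag : ∀ j, ∑ h : H, b (h.1 (σ j)) * b (h.1 (σ j)) = 0 := by
      intro j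
      have h1 : ∑ h : H, (∑ i, b (h.1 (σ i))) * b (h.1 (σ j)) = 0 :=
        Finset.sum_eq_zero fun h _ => by rw [hHsum, zero_mul]
      simp only [Finset.sum_mul] at h1
      rw [Finset.sum_comm, ← Finset.add_sum_erase _ _ (Finset.mem_univ j),
        Finset.sum_eq_zero (fun i hi => hoff i j (Finset.ne_of_mem_erase hi)), add_zero] at h1
      exact h1
    funext z
    obtain ⟨j, τ⟩ := z
    obtain ⟨g, hg⟩ := exists_smul_eq (t e₀ j) τ
    have h1 := (Finset.sum_eq_zero_iff_of_nonneg (fun h _ => mul_self_nonneg _)).1 (hdiag j)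
      ⟨φ g, g, rfl⟩ (Finset.mem_univ _)
    have h2 := mul_self_eq_zero.1 h1
    have h3 : φ g (σ j) = (⟨j, τ⟩ : X) := by
      change (⟨j, (g : A →+* A).comp (t e₀ j)⟩ : X) = ⟨j, τ⟩
      rw [← hg]
      rfl
    rw [Pi.zero_apply, ← h3]
    exact h2

end Pool.Agent.Helper43x.NF
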