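import Mathlib
import Pool.Agent.Helper43x.NF.Rel
import Pool.Agent.Helper43x.NF.Diag
import Pool.Agent.Helper43x.UC.Gal
import Pool.Agent.H204R3.GP.Hom
import Pool.Agent.H204R3.CM.Nondeg

/-!
# One Frobenius element and the Tate conjecture for all motives
-/

set_option autoImplicit false

namespace Pool.Agent.Helper43x.NF

open NumberField NumberField.IsCMField Pool.Agent.H485R3 Pool.Agent.H925R2
open Pool.Agent.Helper43x.ZO Pool.Agent.H204R3.GP Polynomial Module IntermediateField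

/-- one element with the given characteristic polynomial suffices -/
def Suffices (ℓ : ℕ) [Fact ℓ.Prime] (p a : ℕ) {I : Type} [Fintype I] {K : I → Type} [∀ i, Field (K i)]
    [∀ i, NumberField (K i)] (π : ∀ i, K i) : Prop :=
  ∀ {V : Type} [AddCommGroup V] [Module ℚ_[ℓ] V] [FiniteDimensional ℚ_[ℓ] V]
    {Γ : Type} [Group Γ] (ρ : Representation ℚ_[ℓ] Γ V) (χ : Γ →* ℚ_[ℓ])
    (ω : V →ₗ[ℚ_[ℓ]] V →ₗ[ℚ_[ℓ]] ℚ_[ℓ]), (∀ v, ω v v = 0) → (∀ u, (∀ v, ω v u = 0) → u = 0) →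
    (∀ s u v, ω (ρ s u) (ρ s v) = χ s * ω u v) → FiniteIndexSemisimple ρ →
    ∀ γ : Γ, χ γ = (p : ℚ_[ℓ]) ^ a →
    (ρ γ).charpoly = ∏ i, (minpoly ℚ (π i)).map (algebraMap ℚ ℚ_[ℓ]) →
    HomsGeneratedInDegreeTwo ρ χ ω

variable {I : Type} [Fintype I] {K : I → Type} [∀ i, Field (K i)] [∀ i, NumberField (K i)]

omit [Fintype I] in
theorem gen_of_sep {π : ∀ i, K i} (hsep : Separated π) (i : I) : ℚ⟮π i⟯ = ⊤ := by
  let φ : K i →ₐ[ℚ] ℂ := IsAlgClosed.lift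
  rw [Field.primitive_element_iff_algHom_eq_of_eval ℚ ℂ (fun x => IsAlgClosed.splits _) _ φ]
  intro ψ hψ
  have h1 : (⟨i, φ.toRingHom⟩ : Σ i, K i →+* ℂ) = ⟨i, ψ.toRingHom⟩ := by
    apply hsep 1 one_pos
    change φ (π i) ^ 1 = ψ (π i) ^ 1
    rw [hψ]
  have h2 : φ.toRingHom = ψ.toRingHom := eq_of_heq (Sigma.mk.inj h1).2
  ext z
  exact congrArg (fun f : K i →+* ℂ => f z) h2

variable [∀ i, IsCMField (K i)] {p : ℕ} [Fact p.Prime]

theorem suffices_of_norel {a : ℕ} (ha : 0 < a) {π : ∀ i, K i} (hπ : WeilTuple p a π) (hsep : Separated π)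
    (hno : NoRel (cj (K := K) (A := AlgebraicClosure ℚ)) (Dv p a π)) (ℓ : ℕ) [Fact ℓ.Prime] :
    Suffices ℓ p a π := by
  intro V _ _ _ Γ _ ρ χ ω halt hnondeg hω hss γ hχ hγ
  have hss' : ∀ Δ : Subgroup Γ, Δ.FiniteIndex → SemiUnder (ρ '' (Δ : Set Γ)) := by
    intro Δ hΔ U hU
    obtain ⟨U', h1, h2⟩ := hss Δ hΔ U (fun s hs u hu => hU _ ⟨s, hs, rfl⟩ u hu)
    refine ⟨U', ?_, h2⟩
    rintro _ ⟨s, hs, rfl⟩ u hu
    exact h1 s hs u hu
  obtain ⟨L, hL1, hL2, j, h⟩ := Pool.Agent.H204R3.CM.exists_galois K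
  have hneat := neat_of_norel hπ hno (algebraMap L (AlgebraicClosure ℚ))
  exact homs_generated ρ χ ω halt hnondeg hω fun m φ hφ => tate_of_neat ha (gen_of_sep hsep)
    (weil_mul hπ) j h hneat ρ χ ω halt hnondeg hω hss' γ hχ hγ φ hφ

section converse

variable {ℓ : ℕ} [Fact ℓ.Prime]

/-- the `π i` have all conjugates in the field of `ℓ`-adic numbers -/
theorem minpoly_eq {F : Type} [Field F] [NumberField F] (x : F) (hx : ℚ⟮x⟯ = ⊤)
    (hsplit : ∀ y : F →+* PadicAlgCl ℓ, ∃ x : F →+* ℚ_[ℓ], y = (algebraMap ℚ_[ℓ] (PadicAlgCl ℓ)).comp x)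
    (hinj : Function.Injective fun φ : F →+* ℚ_[ℓ] => φ x) :
    ∏ φ : F →+* ℚ_[ℓ], (X - C (φ x)) = (minpoly ℚ x).map (algebraMap ℚ ℚ_[ℓ]) := by
  classical
  have hint : IsIntegral ℚ x := Algebra.IsIntegral.isIntegral x
  have hcard : finrank ℚ F ≤ Fintype.card (F →+* ℚ_[ℓ]) := by
    rw [← Embeddings.card F (PadicAlgCl ℓ)]
    choose f hf using hsplit
    refine Fintype.card_le_of_injective f fun y y' h => ?_
    rw [hf y, hf y', h]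
  symm
  refine eq_of_monic_of_dvd_of_natDegree_le (monic_prod_of_monic _ _ fun φ _ => monic_X_sub_C _)
    ((minpoly.monic hint).map _) ?_ ?_
  · refine Finset.prod_dvd_of_coprime ?_ ?_
    · intro φ _ ψ _ h
      exact isCoprime_X_sub_C_of_isUnit_sub (isUnit_iff_ne_zero.2 (sub_ne_zero.2 (hinj.ne h)))
    · intro φ _
      rw [dvd_iff_isRoot, IsRoot.def, eval_map]
      have h1 : (algebraMap ℚ ℚ_[ℓ]) = φ.comp (algebraMap ℚ F) := Subsingleton.elim _ _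
      rw [h1, ← hom_eval₂, ← aeval_def, minpoly.aeval, map_zero]
  · rw [natDegree_map, natDegree_prod_of_monic _ _ fun φ _ => monic_X_sub_C _]
    simp only [natDegree_X_sub_C, Finset.sum_const, Finset.card_univ, smul_eq_mul, mul_one]
    rw [← IntermediateField.adjoin.finrank hint, hx, IntermediateField.finrank_top']
    exact hcard

theorem not_suffices {a : ℕ} {π : ∀ i, K i} (hπ : WeilTuple p a π) (hsep : Separated π)
    (hno : ¬ NoRel (cj (K := K) (A := AlgebraicClosure ℚ)) (Dv p a π))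
    (hsplit : ∀ i, ∀ y : K i →+* PadicAlgCl ℓ, ∃ x : K i →+* ℚ_[ℓ],
      y = (algebraMap ℚ_[ℓ] (PadicAlgCl ℓ)).comp x) : ¬ Suffices ℓ p a π := by
  classical
  intro H
  obtain ⟨_, halg⟩ : ∃ _ : Algebra ℚ (AlgebraicClosure ℚ),
      Algebra.IsAlgebraic ℚ (AlgebraicClosure ℚ) := ⟨_, AlgebraicClosure.isAlgebraic ℚ⟩
  let e : AlgebraicClosure ℚ →+* PadicAlgCl ℓ :=
    (IsAlgClosed.lift : AlgebraicClosure ℚ →ₐ[ℚ] PadicAlgCl ℓ).toRingHom
  let E : Type := Σ i, K i →+* ℚ_[ℓ]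
  have hp0 : (p : ℚ_[ℓ]) ≠ 0 := by exact_mod_cast (Fact.out : p.Prime).ne_zero
  let μ : E → ℚ_[ℓ]ˣ := fun x => Units.mk0 (x.2 (π x.1)) ((_root_.map_ne_zero _).2 (weil_ne hπ _))
  let Q : ℚ_[ℓ]ˣ := Units.mk0 ((p : ℚ_[ℓ]) ^ a) (pow_ne_zero _ hp0)
  have hμ : ∀ x, μ x * μ (cj x) = Q := fun x => Units.ext (val_cj hπ x)
  -- the embeddings in the algebraic numbers
  have hτ : ∀ x : E, ∃ j : Σ i, K i →+* AlgebraicClosure ℚ, j.1 = x.1 ∧
      (⟨j.1, e.comp j.2⟩ : Σ i, K i →+* PadicAlgCl ℓ) =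
        ⟨x.1, (algebraMap ℚ_[ℓ] (PadicAlgCl ℓ)).comp x.2⟩ := by
    rintro ⟨i, x⟩
    obtain ⟨τ, hτ⟩ := exists_factor' e ((algebraMap ℚ_[ℓ] (PadicAlgCl ℓ)).comp x)
    exact ⟨⟨i, τ⟩, rfl, by
      congr 1
      exact RingHom.ext hτ⟩
  have hinjalg : ∀ x x' : E, (⟨x.1, (algebraMap ℚ_[ℓ] (PadicAlgCl ℓ)).comp x.2⟩ :
      Σ i, K i →+* PadicAlgCl ℓ) = ⟨x'.1, (algebraMap ℚ_[ℓ] (PadicAlgCl ℓ)).comp x'.2⟩ → x = x' := by
    rintro ⟨i, x⟩ ⟨i', x'⟩ h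
    have h1 : i = i' := congrArg Sigma.fst h
    subst h1
    have h2 := eq_of_heq (Sigma.mk.inj h).2
    congr 1
    ext z
    exact (algebraMap ℚ_[ℓ] (PadicAlgCl ℓ)).injective
      (congrArg (fun f : K i →+* PadicAlgCl ℓ => f z) h2)
  have hinje : ∀ j j' : Σ i, K i →+* AlgebraicClosure ℚ, (⟨j.1, e.comp j.2⟩ :
      Σ i, K i →+* PadicAlgCl ℓ) = ⟨j'.1, e.comp j'.2⟩ → j = j' := by
    rintro ⟨i, x⟩ ⟨i', x'⟩ h
    have h1 : i = i' := congrArg Sigma.fst h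
    subst h1
    have h2 := eq_of_heq (Sigma.mk.inj h).2
    congr 1
    ext z
    exact e.injective (congrArg (fun f : K i →+* PadicAlgCl ℓ => f z) h2)
  have hval : ∀ (j : Σ i, K i →+* AlgebraicClosure ℚ) (x : E),
      (⟨j.1, e.comp j.2⟩ : Σ i, K i →+* PadicAlgCl ℓ) =
        ⟨x.1, (algebraMap ℚ_[ℓ] (PadicAlgCl ℓ)).comp x.2⟩ →
      e (j.2 (π j.1)) = algebraMap ℚ_[ℓ] (PadicAlgCl ℓ) (μ x : ℚ_[ℓ]) := by
    intro j x h
    have h1 := congrArg (fun y : Σ i, K i →+* PadicAlgCl ℓ => y.2 (π y.1)) h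
    exact h1
  have hsepE : ∀ M : ℕ, 0 < M → Function.Injective fun x => μ x ^ M := by
    intro M hM x x' h
    obtain ⟨j, -, hj⟩ := hτ x
    obtain ⟨j', -, hj'⟩ := hτ x'
    apply hinjalg
    rw [← hj, ← hj']
    have h1 : j = j' := by
      apply inj_of_sep hsep M hM
      apply e.injective
      rw [map_pow, map_pow, hval j x hj, hval j' x' hj', ← map_pow, ← map_pow]
      congr 1
      exact congrArg Units.val h
    rw [h1]
  have hx : ∀ j : Σ i, K i →+* AlgebraicClosure ℚ, ∃ x : E, (⟨j.1, e.comp j.2⟩ :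
      Σ i, K i →+* PadicAlgCl ℓ) = ⟨x.1, (algebraMap ℚ_[ℓ] (PadicAlgCl ℓ)).comp x.2⟩ := by
    rintro ⟨i, τ⟩
    obtain ⟨x, hx⟩ := hsplit i (e.comp τ)
    exact ⟨⟨i, x⟩, by
      change (⟨i, e.comp τ⟩ : Σ i, K i →+* PadicAlgCl ℓ) = _
      rw [hx]⟩
  choose g hg using hx
  have hgc : ∀ j, g (cj j) = cj (g j) := by
    intro j
    apply hinjalg
    rw [← hg (cj j)]
    have h1 := congrArg (fun y : Σ i, K i →+* PadicAlgCl ℓ => cj y) (hg j)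
    exact h1
  have hginj : Function.Injective g := by
    intro j j' h
    apply hinje
    rw [hg, hg, h]
  -- the relation
  obtain ⟨np, hnp, hmpos, s, hs, hrel⟩ := exists_relation hπ hno
  set m := ∑ j, np j with hm
  let κT : Type := Σ j : (Σ i, K i →+* AlgebraicClosure ℚ), Fin (2 * np j)
  have hcard : Fintype.card κT = 2 * m := by
    simp only [κT, Fintype.card_sigma, Fintype.card_fin, hm, Finset.mul_sum]
  let ε : Fin (2 * m) ≃ κT := (Fintype.equivFinOfCardEq hcard).symm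
  refine not_generated μ Q cj hμ hsepE (om cj) (2 * m) m s (fun l => g (ε l).1) rfl hmpos hs ?_ ?_ ?_
  · apply Units.ext
    apply (algebraMap ℚ_[ℓ] (PadicAlgCl ℓ)).injective
    have h1 := congrArg e hrel
    simp only [map_pow, map_prod, map_natCast] at h1
    have h2 : (((∏ l, μ (g (ε l).1)) ^ s : ℚ_[ℓ]ˣ) : ℚ_[ℓ]) =
        (∏ l, ((μ (g (ε l).1) : ℚ_[ℓ]ˣ) : ℚ_[ℓ])) ^ s := by
      push_cast
      rfl
    have h3 : (((Q ^ m) ^ s : ℚ_[ℓ]ˣ) : ℚ_[ℓ]) = (((p : ℚ_[ℓ]) ^ a) ^ m) ^ s := by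
      push_cast
      rfl
    rw [h2, h3]
    simp only [map_pow, map_prod, map_natCast]
    rw [← h1]
    congr 1
    rw [Equiv.prod_comp ε (fun k : κT => (algebraMap ℚ_[ℓ] (PadicAlgCl ℓ)) ((μ (g k.1) : ℚ_[ℓ]ˣ) : ℚ_[ℓ]))]
    have h4 : ∏ k : κT, (algebraMap ℚ_[ℓ] (PadicAlgCl ℓ)) ((μ (g k.1) : ℚ_[ℓ]ˣ) : ℚ_[ℓ]) =
        ∏ j, ∏ _l : Fin (2 * np j), (algebraMap ℚ_[ℓ] (PadicAlgCl ℓ)) ((μ (g j) : ℚ_[ℓ]ˣ) : ℚ_[ℓ]) :=
      Fintype.prod_sigma (fun k : κT => (algebraMap ℚ_[ℓ] (PadicAlgCl ℓ)) ((μ (g k.1) : ℚ_[ℓ]ˣ) : ℚ_[ℓ]))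
    rw [h4]
    refine Finset.prod_congr rfl fun j _ => ?_
    rw [Finset.prod_const, Finset.card_univ, Fintype.card_fin, hval j (g j) (hg j)]
  · intro b b' h
    rw [← hgc] at h
    have h1 := hginj h
    have h4 : 0 < 2 * np (ε b).1 := lt_of_le_of_lt (Nat.zero_le _) (ε b).2.2
    have h5 : 0 < 2 * np (ε b').1 := lt_of_le_of_lt (Nat.zero_le _) (ε b').2.2
    have h6 := hnp (ε b).1 (by omega)
    rw [← h1] at h6
    omega
  · refine H (diagRep μ) (chi Q) (om cj) (om_alt cj cj_cj' cj_ne') (om_nondeg cj cj_cj')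
      (om_rep cj μ Q hμ) (diagRep_semisimple μ hsepE) (Multiplicative.ofAdd 1) ?_ ?_
    · rw [chi_apply, toAdd_ofAdd, zpow_one]
      rfl
    · rw [diagRep_charpoly, Fintype.prod_sigma]
      refine Finset.prod_congr rfl fun i _ => ?_
      refine minpoly_eq (π i) (gen_of_sep hsep i) (hsplit i) fun φ ψ h => ?_
      have h1 : (⟨i, φ⟩ : E) = ⟨i, ψ⟩ := by
        apply hsepE 1 one_pos
        apply Units.ext
        change ((μ ⟨i, φ⟩ ^ 1 : ℚ_[ℓ]ˣ) : ℚ_[ℓ]) = ((μ ⟨i, ψ⟩ ^ 1 : ℚ_[ℓ]ˣ) : ℚ_[ℓ])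
        rw [pow_one, pow_one]
        exact h
      exact eq_of_heq (Sigma.mk.inj h1).2

end converse

theorem pos_of_not {a : ℕ} {π : ∀ i, K i} (hπ : WeilTuple p a π) (hsep : Separated π)
    (hno : ¬ NoRel (cj (K := K) (A := AlgebraicClosure ℚ)) (Dv p a π)) : 0 < a := by
  obtain ⟨_, halg⟩ : ∃ _ : Algebra ℚ (AlgebraicClosure ℚ),
      Algebra.IsAlgebraic ℚ (AlgebraicClosure ℚ) := ⟨_, AlgebraicClosure.isAlgebraic ℚ⟩
  by_contra ha
  obtain rfl : a = 0 := by omega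
  obtain ⟨np, -, hmpos, -⟩ := exists_relation hπ hno
  obtain ⟨j, -⟩ : ∃ j, 0 < np j := by
    by_contra h
    push Not at h
    rw [Finset.sum_eq_zero (fun j _ => Nat.le_zero.1 (h j))] at hmpos
    exact lt_irrefl _ hmpos
  obtain ⟨r, hr, hr1⟩ := NumberField.Embeddings.pow_eq_one_of_norm_eq_one (K j.1) ℂ (hπ j.1).1 (by
    intro φ
    have h1 := (hπ j.1).2 φ
    rw [pow_zero] at h1
    exact (pow_eq_one_iff_of_nonneg (norm_nonneg _) two_ne_zero).1 h1)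
  refine cj_ne' j (inj_of_sep hsep r hr (cj j) j ?_)
  change (j.2 (complexConj (K j.1) (π j.1))) ^ r = (j.2 (π j.1)) ^ r
  rw [← map_pow, ← map_pow, ← map_pow, hr1, map_one, map_one]

/-- the pointwise equivalences -/
theorem pointwise {a : ℕ} (ha : 0 < a) {π : ∀ i, K i} (hπ : WeilTuple p a π) (hsep : Separated π) :
    List.TFAE [∀ (ℓ : ℕ) [Fact ℓ.Prime], Suffices ℓ p a π,
      ∃ (ℓ : ℕ) (_ : Fact ℓ.Prime), (∀ i, ∀ y : K i →+* PadicAlgCl ℓ, ∃ x : K i →+* ℚ_[ℓ],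
        y = (algebraMap ℚ_[ℓ] (PadicAlgCl ℓ)).comp x) ∧ Suffices ℓ p a π,
      Generated π (p ^ a)] := by
  obtain ⟨_, halg⟩ : ∃ _ : Algebra ℚ (AlgebraicClosure ℚ),
      Algebra.IsAlgebraic ℚ (AlgebraicClosure ℚ) := ⟨_, AlgebraicClosure.isAlgebraic ℚ⟩
  tfae_have 1 → 2 := by
    intro h
    obtain ⟨ℓ, hℓ, hsplit⟩ := UC.exists_split K
    exact ⟨ℓ, hℓ, hsplit, h ℓ⟩
  tfae_have 2 → 3 := by
    rintro ⟨ℓ, hℓ, hsplit, h⟩
    by_contra hno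
    exact not_suffices hπ hsep (fun h1 => hno (generated_of_norel hπ h1)) hsplit h
  tfae_have 3 → 1 := by
    intro h ℓ _
    exact suffices_of_norel ha hπ hsep (norel_of_generated hπ hsep h) ℓ
  tfae_finish

/-- the equivalences for the fields -/
theorem fields (K : I → Type) [∀ i, Field (K i)] [∀ i, NumberField (K i)]
    [∀ i, IsCMField (K i)] :
    List.TFAE [∀ (ℓ p : ℕ) [Fact ℓ.Prime] [Fact p.Prime], ∀ a : ℕ, 0 < a → ∀ π : ∀ i, K i,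
        WeilTuple p a π → Separated π → Suffices ℓ p a π,
      ∃ (ℓ p : ℕ) (_ : Fact ℓ.Prime) (_ : Fact p.Prime),
        (∀ i, ∀ y : K i →+* PadicAlgCl ℓ, ∃ x : K i →+* ℚ_[ℓ],
          y = (algebraMap ℚ_[ℓ] (PadicAlgCl ℓ)).comp x) ∧
        (∀ i, ∀ y : K i →+* PadicAlgCl p, ∃ x : K i →+* ℚ_[p],
          y = (algebraMap ℚ_[p] (PadicAlgCl p)).comp x) ∧
        ∀ a : ℕ, 0 < a → ∀ π : ∀ i, K i, WeilTuple p a π → Separated π → Suffices ℓ p a π,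
      (∀ i, UC.Small (K i) (AlgebraicClosure ℚ)) ∧
        ∀ i j, i ≠ j → ∀ (σ : K i →+* AlgebraicClosure ℚ) (τ : K j →+* AlgebraicClosure ℚ),
        ∃ g : AlgebraicClosure ℚ ≃+* AlgebraicClosure ℚ,
          (g : AlgebraicClosure ℚ →+* AlgebraicClosure ℚ).comp σ = bar σ ∧
            (g : AlgebraicClosure ℚ →+* AlgebraicClosure ℚ).comp τ = τ] := by
  obtain ⟨_, halg⟩ : ∃ _ : Algebra ℚ (AlgebraicClosure ℚ),
      Algebra.IsAlgebraic ℚ (AlgebraicClosure ℚ) := ⟨_, AlgebraicClosure.isAlgebraic ℚ⟩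
  have h := UC.main_tfae K (AlgebraicClosure ℚ)
  have h24 := h.out 1 3
  have h14 := h.out 0 3
  tfae_have 1 → 2 := by
    intro h1
    obtain ⟨ℓ, hℓ, hsplit⟩ := UC.exists_split K
    exact ⟨ℓ, ℓ, hℓ, hℓ, hsplit, hsplit, h1 ℓ ℓ⟩
  tfae_have 2 → 3 := by
    rintro ⟨ℓ, p, hℓ, hp, hsplit, hsplit', h1⟩
    refine h24.1 ⟨p, hp, hsplit', fun a π hπ hsep => ?_⟩
    by_contra hno
    have hno' : ¬ NoRel (cj (K := K) (A := AlgebraicClosure ℚ)) (Dv p a π) :=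
      fun h2 => hno (generated_of_norel hπ h2)
    exact not_suffices hπ hsep hno' hsplit (h1 a (pos_of_not hπ hsep hno') π hπ hsep)
  tfae_have 3 → 1 := by
    intro h3 ℓ p _ hp a ha π hπ hsep
    exact suffices_of_norel ha hπ hsep (norel_of_generated hπ hsep (h14.2 h3 p hp.out a π hπ hsep)) ℓ
  tfae_finish

end Pool.Agent.Helper43x.NF
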