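import Mathlib
import Pool.Agent.Helper43x.NF.Main
import Pool.Agent.H204R3.GP.MTDefs
import Pool.Agent.H204R3.GP.MT

/-!
# One Frobenius element and the Mumford-Tate conjecture
-/

set_option autoImplicit false

namespace Pool.Agent.Helper43x.NF

open NumberField NumberField.IsCMField Pool.Agent.H485R3 Pool.Agent.H925R2
open Pool.Agent.Helper43x.ZO Pool.Agent.H204R3.GP Polynomial Module IntermediateField

/-- one element with the given characteristic polynomial implies the Mumford-Tate conjecture -/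
def SufficesMT (ℓ : ℕ) [Fact ℓ.Prime] (p a : ℕ) {I : Type} [Fintype I] {K : I → Type} [∀ i, Field (K i)]
    [∀ i, NumberField (K i)] (π : ∀ i, K i) : Prop :=
  ∀ {W T : Type} [AddCommGroup W] [Module ℚ W] [AddCommGroup T] [Module ℂ T] (per : W →+ T)
    (ω₀ : W →ₗ[ℚ] W →ₗ[ℚ] ℚ), IsHodgeBilinear per ω₀ →
    ∀ {V : Type} [AddCommGroup V] [Module ℚ_[ℓ] V] [FiniteDimensional ℚ_[ℓ] V] (comp : W →+ V)
    {Γ : Type} [Group Γ] (ρ : Representation ℚ_[ℓ] Γ V) (χ : Γ →* ℚ_[ℓ])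
    (ω : V →ₗ[ℚ_[ℓ]] V →ₗ[ℚ_[ℓ]] ℚ_[ℓ]), (∀ v, ω v v = 0) → (∀ u, (∀ v, ω v u = 0) → u = 0) →
    (∀ s u v, ω (ρ s u) (ρ s v) = χ s * ω u v) →
    (∀ x y, ω (comp x) (comp y) = ((ω₀ x y : ℚ) : ℚ_[ℓ])) →
    FiniteIndexSemisimple ρ → FaltingsEnd per comp ρ →
    ∀ γ : Γ, χ γ = (p : ℚ_[ℓ]) ^ a →
    (ρ γ).charpoly = ∏ i, (minpoly ℚ (π i)).map (algebraMap ℚ ℚ_[ℓ]) →
    MumfordTateStrong per comp ρ χ

variable {I : Type} [Fintype I] {K : I → Type} [∀ i, Field (K i)] [∀ i, NumberField (K i)]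
  [∀ i, IsCMField (K i)] {p : ℕ} [Fact p.Prime]

theorem sufficesMT_of_norel {a : ℕ} (ha : 0 < a) {π : ∀ i, K i} (hπ : WeilTuple p a π)
    (hsep : Separated π)
    (hno : NoRel (cj (K := K) (A := AlgebraicClosure ℚ)) (Dv p a π)) (ℓ : ℕ) [Fact ℓ.Prime] :
    SufficesMT ℓ p a π := by
  intro W T _ _ _ _ per ω₀ hω₀ V _ _ _ comp Γ _ ρ χ ω halt hnondeg hω hωω hss hF γ hχ hγ
  have hss' : ∀ Δ : Subgroup Γ, Δ.FiniteIndex → SemiUnder (ρ '' (Δ : Set Γ)) := by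
    intro Δ hΔ U hU
    obtain ⟨U', h1, h2⟩ := hss Δ hΔ U (fun s hs u hu => hU _ ⟨s, hs, rfl⟩ u hu)
    refine ⟨U', ?_, h2⟩
    rintro _ ⟨s, hs, rfl⟩ u hu
    exact h1 s hs u hu
  have hnd' : ∀ u, (∀ v, ω u v = 0) → u = 0 := by
    intro u hu
    apply hnondeg
    intro v
    have h1 := halt (u + v)
    simp only [map_add, LinearMap.add_apply, halt, hu, zero_add, add_zero] at h1
    exact h1
  obtain ⟨L, hL1, hL2, j, h⟩ := Pool.Agent.H204R3.CM.exists_galois K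
  have hneat := neat_of_norel hπ hno (algebraMap L (AlgebraicClosure ℚ))
  exact mumfordTate_of per comp ρ χ ω hnd' hω ω₀ hω₀ hωω hF fun m φ hφ => tate_of_neat ha
    (gen_of_sep hsep) (weil_mul hπ) j h hneat ρ χ ω halt hnondeg hω hss' γ hχ hγ φ hφ

theorem sufficesMT_of_generated {a : ℕ} (ha : 0 < a) {π : ∀ i, K i} (hπ : WeilTuple p a π)
    (hsep : Separated π) (hgen : Generated π (p ^ a)) (ℓ : ℕ) [Fact ℓ.Prime] :
    SufficesMT ℓ p a π := by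
  obtain ⟨_, halg⟩ : ∃ _ : Algebra ℚ (AlgebraicClosure ℚ),
      Algebra.IsAlgebraic ℚ (AlgebraicClosure ℚ) := ⟨_, AlgebraicClosure.isAlgebraic ℚ⟩
  exact sufficesMT_of_norel ha hπ hsep (norel_of_generated hπ hsep hgen) ℓ

theorem suffices_of_generated {a : ℕ} (ha : 0 < a) {π : ∀ i, K i} (hπ : WeilTuple p a π)
    (hsep : Separated π) (hgen : Generated π (p ^ a)) (ℓ : ℕ) [Fact ℓ.Prime] :
    Suffices ℓ p a π := by
  obtain ⟨_, halg⟩ : ∃ _ : Algebra ℚ (AlgebraicClosure ℚ),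
      Algebra.IsAlgebraic ℚ (AlgebraicClosure ℚ) := ⟨_, AlgebraicClosure.isAlgebraic ℚ⟩
  exact suffices_of_norel ha hπ hsep (norel_of_generated hπ hsep hgen) ℓ

/-- the fields determine that all families are good -/
theorem good_of_fields (K : I → Type) [∀ i, Field (K i)] [∀ i, NumberField (K i)]
    [∀ i, IsCMField (K i)]
    (h : (∀ i, UC.Small (K i) (AlgebraicClosure ℚ)) ∧
        ∀ i j, i ≠ j → ∀ (σ : K i →+* AlgebraicClosure ℚ) (τ : K j →+* AlgebraicClosure ℚ),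
        ∃ g : AlgebraicClosure ℚ ≃+* AlgebraicClosure ℚ,
          (g : AlgebraicClosure ℚ →+* AlgebraicClosure ℚ).comp σ = bar σ ∧
            (g : AlgebraicClosure ℚ →+* AlgebraicClosure ℚ).comp τ = τ) (p : ℕ) (hp : p.Prime) :
    UC.GoodAt p K := by
  obtain ⟨_, halg⟩ : ∃ _ : Algebra ℚ (AlgebraicClosure ℚ),
      Algebra.IsAlgebraic ℚ (AlgebraicClosure ℚ) := ⟨_, AlgebraicClosure.isAlgebraic ℚ⟩
  have h14 := (UC.main_tfae K (AlgebraicClosure ℚ)).out 0 3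
  exact h14.2 h p hp

/-- almost all families -/
theorem almost_all (K : I → Type) [∀ i, Field (K i)] [∀ i, NumberField (K i)]
    [∀ i, IsCMField (K i)] (hc : Crit p K (AlgebraicClosure ℚ)) (P : ℕ → (∀ i, K i) → Prop)
    (hP : ∀ (a : ℕ) (π : ∀ i, K i), 0 < a → WeilTuple p a π → Separated π → Generated π (p ^ a) → P a π)
    (a h : ℕ) (hh : ∀ i, classNumber (K i) ≤ h) :
    {π : ∀ i, K i | WeilTuple p a π ∧ ¬ P a π}.ncard * (a / h) ≤
      {π : ∀ i, K i | WeilTuple p a π}.ncard * ((∑ i, Module.finrank ℚ (K i)) / 2) := by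
  classical
  obtain ⟨_, halg⟩ : ∃ _ : Algebra ℚ (AlgebraicClosure ℚ),
      Algebra.IsAlgebraic ℚ (AlgebraicClosure ℚ) := ⟨_, AlgebraicClosure.isAlgebraic ℚ⟩
  rcases Nat.eq_zero_or_pos a with rfl | ha
  · simp
  obtain ⟨f, t, ht⟩ := detFun_of_crit (p := p) (K := K) (A := AlgebraicClosure ℚ) hc
  have h1 := count_main f t ht a h hh
  rw [card_half_emb] at h1
  refine le_trans (Nat.mul_le_mul_right _ (Set.ncard_le_ncard ?_ ?_)) h1
  · rintro π ⟨h2, h3⟩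
    exact ⟨h2, fun h4 => h3 (hP a π ha h2 h4.1 h4.2)⟩
  · exact (weil_finite_tuple (K := K) p a).subset fun π hπ => hπ.1

end Pool.Agent.Helper43x.NF
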